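import Mathlib
import Pool.Agent.H770R2.Kad.HProps

open scoped ComplexOrder InnerProductSpace

noncomputable section

namespace H770R2.Kad

open H759R2.Kad

universe u v

/-- Bounded homomorphisms of C*-algebras are completely bounded, from von Neumann algebras. -/
theorem prove_hcb (h1 : H_uni) (h2 : H_ext) (h3 : H_vn) : H_cb := by
  intro A _ _ _ H _ _ _ w hw c hc hwb m X
  rcases subsingleton_or_nontrivial A with hA | hA
  · have h0 : amp w (Fin m) X = 0 := by
      ext v i
      rw [amp_apply]
      have : ∀ j, w (X i j) = 0 := fun j => by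
        rw [Subsingleton.elim (X i j) 0, map_zero]
      simp [this]
    rw [h0, norm_zero]
    positivity
  · obtain ⟨L, iL1, iL2, iL3, π, hπ⟩ := h1 A H w c (by linarith) hwb
    obtain ⟨M, θ, W, hW, hWb, hWθ⟩ := h2 A H w hw c (by linarith) hwb L π hπ
    let i1 : PartialOrder M.toStarSubalgebra := CStarAlgebra.spectralOrder M.toStarSubalgebra
    let i2 : StarOrderedRing M.toStarSubalgebra :=
      CStarAlgebra.spectralOrderedRing M.toStarSubalgebra
    set Z : CStarMatrix (Fin m) (Fin m) M.toStarSubalgebra :=
      CStarMatrix.mapₙₐ (n := Fin m) (θ : A →⋆ₙₐ[ℂ] M.toStarSubalgebra) X with hZ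
    have hZn : ‖Z‖ ≤ ‖X‖ := NonUnitalStarAlgHom.norm_apply_le _ _
    have hZa : ∀ i k, Z i k = θ (X i k) := fun i k => rfl
    have he : amp w (Fin m) X = amp W (Fin m) Z := by
      ext ξ i
      rw [amp_apply, amp_apply]
      refine Finset.sum_congr rfl fun k _ => ?_
      rw [hZa, hWθ]
    have h := h3 L M H W hW (2 * c) (by linarith) hWb m Z
    rw [he]
    exact h.trans (mul_le_mul_of_nonneg_left hZn (by positivity))

end H770R2.Kad
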